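import Pool.Agent.H17.BO.TargetsC

/-!
# MP_70ba79_ag, board `bo_modules`: PLN, the plane
-/

set_option autoImplicit false

namespace Pool.Agent.H79.BO

open MvPolynomial SC Pool.Agent.H27.LV Pool.Agent.H17.VG Pool.Agent.H17.BO

section

variable {k L : Type} [Field k] [Field L] [Algebra k L] {n : ℕ}

/-- `fnl` is linear -/
private theorem fnl_add {d : ℕ} (y : Mon (n + 1) d → L) (G H : MvPolynomial (Fin (n + 1)) L) :
    fnl y (G + H) = fnl y G + fnl y H := by
  unfold fnl
  rw [← Finset.sum_add_distrib]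
  refine Finset.sum_congr rfl fun M _ => ?_
  rw [coeff_add, mul_add]

private theorem fnl_C_mul {d : ℕ} (y : Mon (n + 1) d → L) (c : L)
    (G : MvPolynomial (Fin (n + 1)) L) : fnl y (C c * G) = c * fnl y G := by
  unfold fnl
  rw [Finset.mul_sum]
  refine Finset.sum_congr rfl fun M _ => ?_
  rw [coeff_C_mul]
  ring

/-- the vector of the values on `X j * Q` -/
private noncomputable def Yv {e : ℕ} (y : Mon (n + 1) (e + 1) → L) (Q : Mon (n + 1) e → k) :
    Fin (n + 1) → L := fun j => fnl y (X j * up L (frm Q))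

private theorem Yv_add {e : ℕ} (y : Mon (n + 1) (e + 1) → L) (Q R : Mon (n + 1) e → k) (c : k)
    (j : Fin (n + 1)) : Yv y (fun M => Q M + c * R M) j = Yv y Q j + algebraMap k L c * Yv y R j := by
  have h1 : frm (fun M => Q M + c * R M) = frm Q + C c * frm R := by
    unfold frm
    rw [Finset.mul_sum, ← Finset.sum_add_distrib]
    refine Finset.sum_congr rfl fun M _ => ?_
    rw [C_add, C_mul]
    ring
  unfold Yv
  rw [h1]
  have h2 : X j * up L (frm Q + C c * frm R) =
      X j * up L (frm Q) + C (algebraMap k L c) * (X j * up L (frm R)) := by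
    unfold up
    rw [map_add, map_mul, map_C]
    ring
  rw [h2, fnl_add, fnl_C_mul]

/-- the determinant of three vectors at three places -/
private noncomputable def dt (x u v : Fin (n + 1) → L) (a : Fin 3 → Fin (n + 1)) : L :=
  (Matrix.of fun t r : Fin 3 => (![x (a t), u (a t), v (a t)] : Fin 3 → L) r).det

private theorem dt_eq (x u v : Fin (n + 1) → L) (a : Fin 3 → Fin (n + 1)) :
    dt x u v a = x (a 0) * (u (a 1) * v (a 2) - v (a 1) * u (a 2)) -
      u (a 0) * (x (a 1) * v (a 2) - v (a 1) * x (a 2)) +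
      v (a 0) * (x (a 1) * u (a 2) - u (a 1) * x (a 2)) := by
  unfold dt
  rw [Matrix.det_fin_three]
  simp
  ring

private theorem det3_eq {e : ℕ} (x : Fin (n + 1) → L) (y : Fin 2 → Mon (n + 1) (e + 1) → L)
    (Q : Mon (n + 1) e → k) (a : Fin 3 → Fin (n + 1)) :
    det3 x y (up L (frm Q)) a = dt x (Yv (y 0) Q) (Yv (y 1) Q) a := rfl

/-- the rule of Cramer -/
private theorem cramer3 (x u v : Fin (n + 1) → L) (s : Fin 3 → Fin (n + 1)) (j : Fin (n + 1))
    (z : Fin (n + 1) → L) (hz : z = x ∨ z = u ∨ z = v) :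
    dt x u v s * z j = ∑ t, dt x u v (Function.update s t j) * z (s t) := by
  have h0 : ∀ i : Fin (n + 1), ∀ a b : Fin 3, Function.update s a i b = if b = a then i else s b := by
    intro i a b
    rw [Function.update_apply]
  rw [Fin.sum_univ_three]
  simp only [dt_eq, h0]
  rcases hz with rfl | rfl | rfl <;> simp <;> ring

/-- `z` is in the space given by `P` and `s` -/
private def InW (P : Fin (n + 1) → Fin 3 → k) (s : Fin 3 → Fin (n + 1)) (z : Fin (n + 1) → L) :
    Prop := ∀ j, z j = ∑ t, algebraMap k L (P j t) * z (s t)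

/-- the plane of three vectors -/
private theorem plane (x u v : Fin (n + 1) → L) (s : Fin 3 → Fin (n + 1)) (κ : L)
    (h : ∀ a : Fin 3 → Fin (n + 1), ∃ r : k, dt x u v a = κ * algebraMap k L r)
    (hs : dt x u v s ≠ 0) : Function.Injective s ∧ ∃ P : Fin (n + 1) → Fin 3 → k,
    (∀ t u, P (s t) u = if t = u then 1 else 0) ∧ InW P s x ∧ InW P s u ∧ InW P s v := by
  have hrow : ∀ (a : Fin 3 → Fin (n + 1)) (t t' : Fin 3), t ≠ t' → a t = a t' →
      dt x u v a = 0 := by
    intro a t t' hne hat
    unfold dt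
    refine Matrix.det_zero_of_row_eq hne ?_
    funext r
    simp only [Matrix.of_apply]
    rw [hat]
  choose r hr using h
  have hκ : κ ≠ 0 := fun h0 => hs (by rw [hr, h0, zero_mul])
  have hrs : r s ≠ 0 := fun h0 => hs (by rw [hr, h0, map_zero, mul_zero])
  have hrs' : algebraMap k L (r s) ≠ 0 := (map_ne_zero _).mpr hrs
  refine ⟨fun t t' htt => ?_, fun j t => r (Function.update s t j) / r s, ?_, ?_⟩
  · by_contra hne
    exact hs (hrow s t t' hne htt)
  · intro t t'
    by_cases htt : t = t'
    · subst htt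
      rw [if_pos rfl]
      show r (Function.update s t (s t)) / r s = 1
      rw [Function.update_eq_self, div_self hrs]
    · rw [if_neg htt]
      show r (Function.update s t' (s t)) / r s = 0
      have h1 : dt x u v (Function.update s t' (s t)) = 0 := by
        refine hrow _ t t' htt ?_
        rw [Function.update_self, Function.update_of_ne htt]
      rw [hr, mul_eq_zero] at h1
      have h2 := h1.resolve_left hκ
      rw [(map_eq_zero _).mp h2, zero_div]
  · have key : ∀ z : Fin (n + 1) → L, z = x ∨ z = u ∨ z = v →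
        InW (fun j t => r (Function.update s t j) / r s) s z := by
      intro z hz j
      have h1 := cramer3 x u v s j z hz
      simp only [hr] at h1
      simp only [map_div₀]
      have h2 : κ * algebraMap k L (r s) * z j = κ * algebraMap k L (r s) *
          ∑ t, algebraMap k L (r (Function.update s t j)) / algebraMap k L (r s) * z (s t) := by
        rw [h1, Finset.mul_sum]
        refine Finset.sum_congr rfl fun t _ => ?_
        field_simp
      exact mul_left_cancel₀ (mul_ne_zero hκ hrs') h2
    exact ⟨key x (Or.inl rfl), key u (Or.inr (Or.inl rfl)), key v (Or.inr (Or.inr rfl))⟩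

/-- combinations of three vectors with a linear relation -/
private theorem onLine_of_rel (x : Fin (n + 1) → L) (ξ : Fin 3 → L)
    (p : Fin (n + 1) → Fin 3 → k) (hx : ∀ j, x j = ∑ t, algebraMap k L (p j t) * ξ t)
    (η : Fin 3 → k) (t₀ : Fin 3) (h0 : η t₀ ≠ 0) (hη : ∑ t, algebraMap k L (η t) * ξ t = 0) :
    OnLine k x := by
  have h0' : algebraMap k L (η t₀) ≠ 0 := (map_ne_zero _).mpr h0
  rw [Fin.sum_univ_three] at hη
  have ht : t₀ = 0 ∨ t₀ = 1 ∨ t₀ = 2 := by
    fin_cases t₀ <;> simp
  rcases ht with rfl | rfl | rfl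
  · refine ⟨fun j => p j 1 - η 1 / η 0 * p j 0, fun j => p j 2 - η 2 / η 0 * p j 0, ξ 1, ξ 2,
      fun j => ?_⟩
    have h1 : ξ 0 = -(algebraMap k L (η 1) * ξ 1 + algebraMap k L (η 2) * ξ 2) /
        algebraMap k L (η 0) := by
      rw [eq_div_iff h0']
      linear_combination hη
    rw [hx j, Fin.sum_univ_three, h1, map_sub, map_sub, map_mul, map_mul, map_div₀, map_div₀]
    field_simp
    ring
  · refine ⟨fun j => p j 0 - η 0 / η 1 * p j 1, fun j => p j 2 - η 2 / η 1 * p j 1, ξ 0, ξ 2,
      fun j => ?_⟩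
    have h1 : ξ 1 = -(algebraMap k L (η 0) * ξ 0 + algebraMap k L (η 2) * ξ 2) /
        algebraMap k L (η 1) := by
      rw [eq_div_iff h0']
      linear_combination hη
    rw [hx j, Fin.sum_univ_three, h1, map_sub, map_sub, map_mul, map_mul, map_div₀, map_div₀]
    field_simp
    ring
  · refine ⟨fun j => p j 0 - η 0 / η 2 * p j 2, fun j => p j 1 - η 1 / η 2 * p j 2, ξ 0, ξ 1,
      fun j => ?_⟩
    have h1 : ξ 2 = -(algebraMap k L (η 0) * ξ 0 + algebraMap k L (η 1) * ξ 1) /
        algebraMap k L (η 2) := by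
      rw [eq_div_iff h0']
      linear_combination hη
    rw [hx j, Fin.sum_univ_three, h1, map_sub, map_sub, map_mul, map_mul, map_div₀, map_div₀]
    field_simp
    ring

/-- two planes -/
private theorem compare (x : Fin (n + 1) → L) (s s' : Fin 3 → Fin (n + 1))
    (P P' : Fin (n + 1) → Fin 3 → k) (hP : ∀ t u, P (s t) u = if t = u then 1 else 0)
    (hx : InW P s x) (hx' : InW P' s' x) :
    OnLine k x ∨ ∀ z : Fin (n + 1) → L, InW P' s' z → InW P s z := by
  by_cases hA : ∃ j t, P j t - ∑ u, P' j u * P (s' u) t ≠ 0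
  · obtain ⟨j, t, hjt⟩ := hA
    refine Or.inl (onLine_of_rel x (fun t => x (s t)) P hx
      (fun t => P j t - ∑ u, P' j u * P (s' u) t) t hjt ?_)
    have h1 := hx j
    have h2 := hx' j
    have h3 : ∑ u, algebraMap k L (P' j u) * x (s' u) =
        ∑ t, (∑ u, algebraMap k L (P' j u) * algebraMap k L (P (s' u) t)) * x (s t) := by
      simp_rw [Finset.sum_mul]
      rw [Finset.sum_comm]
      refine Finset.sum_congr rfl fun u _ => ?_
      rw [hx (s' u), Finset.mul_sum]
      refine Finset.sum_congr rfl fun t _ => ?_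
      ring
    rw [h3] at h2
    simp only [map_sub, map_sum, map_mul, sub_mul, Finset.sum_sub_distrib]
    rw [← h1, ← h2, sub_self]
  · push Not at hA
    right
    intro z hz j
    have hPj : ∀ j t, P j t = ∑ u, P' j u * P (s' u) t := fun j t => sub_eq_zero.mp (hA j t)
    have hone : (Matrix.of fun t u : Fin 3 => P' (s t) u) * (Matrix.of fun u t => P (s' u) t) =
        1 := by
      ext t t'
      rw [Matrix.mul_apply, Matrix.one_apply, ← hP, hPj (s t) t']
      rfl
    have hone' := mul_eq_one_comm.mp hone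
    have hPP : ∀ j u, P' j u = ∑ t, P j t * P' (s t) u := by
      intro j u
      have h1 : ∀ w : Fin 3, ∑ t, P (s' w) t * P' (s t) u = if w = u then 1 else 0 := by
        intro w
        have := congrFun (congrFun hone' w) u
        rw [Matrix.mul_apply, Matrix.one_apply] at this
        exact this
      calc P' j u = ∑ w, P' j w * (if w = u then 1 else 0) := by
            simp
        _ = ∑ w, P' j w * ∑ t, P (s' w) t * P' (s t) u :=
            Finset.sum_congr rfl fun w _ => by rw [h1]
        _ = ∑ t, P j t * P' (s t) u := by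
            simp_rw [Finset.mul_sum]
            rw [Finset.sum_comm]
            refine Finset.sum_congr rfl fun t _ => ?_
            rw [hPj j t, Finset.sum_mul]
            refine Finset.sum_congr rfl fun w _ => ?_
            ring
    calc z j = ∑ u, algebraMap k L (P' j u) * z (s' u) := hz j
      _ = ∑ u, ∑ t, algebraMap k L (P j t) * (algebraMap k L (P' (s t) u) * z (s' u)) := by
          refine Finset.sum_congr rfl fun u _ => ?_
          rw [hPP j u, map_sum, Finset.sum_mul]
          refine Finset.sum_congr rfl fun t _ => ?_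
          rw [map_mul, mul_assoc]
      _ = ∑ t, algebraMap k L (P j t) * z (s t) := by
          rw [Finset.sum_comm]
          refine Finset.sum_congr rfl fun t _ => ?_
          rw [hz (s t), Finset.mul_sum]

/-- a determinant does not vanish on a line through a point where it is not zero -/
private theorem exists_eps [Infinite k] (α β γ : L) (hα : α ≠ 0) :
    ∃ c : k, c ≠ 0 ∧ α + algebraMap k L c * β + algebraMap k L c ^ 2 * γ ≠ 0 := by
  by_contra hcon
  push Not at hcon
  have hinf : Set.Infinite (Set.range (algebraMap k L)) :=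
    Set.infinite_range_of_injective (algebraMap k L).injective
  have hp : (Polynomial.C α + Polynomial.C β * Polynomial.X + Polynomial.C γ *
      Polynomial.X ^ 2) * Polynomial.X = 0 := by
    refine Polynomial.eq_zero_of_infinite_isRoot _ (hinf.mono ?_)
    rintro _ ⟨c, rfl⟩
    show Polynomial.IsRoot _ _
    rw [Polynomial.IsRoot.def]
    by_cases hc : c = 0
    · simp [hc]
    · have := hcon c hc
      simp only [Polynomial.eval_mul, Polynomial.eval_add, Polynomial.eval_C, Polynomial.eval_X,
        Polynomial.eval_pow]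
      rw [show α + β * algebraMap k L c + γ * algebraMap k L c ^ 2 =
        α + algebraMap k L c * β + algebraMap k L c ^ 2 * γ by ring, this, zero_mul]
  have h1 := (mul_eq_zero.mp hp).resolve_right Polynomial.X_ne_zero
  have h2 := congrArg (fun g => Polynomial.eval 0 g) h1
  simp at h2
  exact hα h2

end

theorem pf_PLN : T_PLN := by
  intro k L _ _ _ _ n e x y κ h hne
  obtain ⟨Q₀, s, hs⟩ := hne
  simp only [det3_eq] at h hs
  obtain ⟨hinj, P, hP, hPx, hP0, hP1⟩ := plane x (Yv (y 0) Q₀) (Yv (y 1) Q₀) s κ (h Q₀) hs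
  by_cases hcase : ∀ (Q : Mon (n + 1) e → k) (a : Fin 3 → Fin (n + 1)),
      dt x (Yv (y 0) Q) (Yv (y 1) Q) a ≠ 0 → InW P s (Yv (y 0) Q) ∧ InW P s (Yv (y 1) Q)
  · refine Or.inr ⟨s, P, hinj, hP, ⟨Q₀, by rw [det3_eq]; exact hs⟩, hPx, ?_⟩
    intro Q
    -- a point on the line `Q₀ + c Q`
    have hdt : ∀ c : k, dt x (Yv (y 0) (fun M => Q₀ M + c * Q M))
        (Yv (y 1) (fun M => Q₀ M + c * Q M)) s =
        dt x (Yv (y 0) Q₀) (Yv (y 1) Q₀) s + algebraMap k L c *
          (dt x (Yv (y 0) Q) (Yv (y 1) Q₀) s + dt x (Yv (y 0) Q₀) (Yv (y 1) Q) s) +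
          algebraMap k L c ^ 2 * dt x (Yv (y 0) Q) (Yv (y 1) Q) s := by
      intro c
      simp only [dt_eq, Yv_add]
      ring
    obtain ⟨c, hc, hcd⟩ := exists_eps (k := k)
      (dt x (Yv (y 0) Q₀) (Yv (y 1) Q₀) s)
      (dt x (Yv (y 0) Q) (Yv (y 1) Q₀) s + dt x (Yv (y 0) Q₀) (Yv (y 1) Q) s)
      (dt x (Yv (y 0) Q) (Yv (y 1) Q) s) hs
    rw [← hdt] at hcd
    have hW := hcase _ s hcd
    have hc' : algebraMap k L c ≠ 0 := (map_ne_zero _).mpr hc
    have hb : ∀ b : Fin 2, InW P s (Yv (y b) (fun M => Q₀ M + c * Q M)) ∧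
        InW P s (Yv (y b) Q₀) := by
      intro b
      fin_cases b
      · exact ⟨hW.1, hP0⟩
      · exact ⟨hW.2, hP1⟩
    intro b j
    have h1 := (hb b).1 j
    have h2 := (hb b).2 j
    simp only [Yv_add, mul_add, Finset.sum_add_distrib] at h1
    rw [← h2] at h1
    have h3 := add_left_cancel h1
    have h4 : algebraMap k L c * Yv (y b) Q j =
        algebraMap k L c * ∑ t, algebraMap k L (P j t) * Yv (y b) Q (s t) := by
      rw [h3, Finset.mul_sum]
      refine Finset.sum_congr rfl fun t _ => ?_
      ring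
    exact mul_left_cancel₀ hc' h4
  · push Not at hcase
    obtain ⟨Q, a, ha, hQ⟩ := hcase
    obtain ⟨_, P', _, hPx', hP0', hP1'⟩ := plane x (Yv (y 0) Q) (Yv (y 1) Q) a κ (h Q) ha
    rcases compare x s a P P' hP hPx hPx' with h1 | h1
    · exact Or.inl h1
    · exact absurd (h1 _ hP1') (hQ (h1 _ hP0'))

end Pool.Agent.H79.BO
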